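import Pool.Agent.H122R2.K5.Defs5

set_option autoImplicit false
set_option maxRecDepth 100000

namespace Pool.Agent.H122R2.N6

def TB5 : ℕ := 0x5231323032313233111100001111323122002200223122320000000000112230221122302211223211111111111122312222222222222232221122002211222200303030323132330000000000013230000000000001023000000000000000000231323022313233110101001101123122020200222202320000000000000000113132303131323311111111111132311231223032313233101100101011323111111110111112311111111111111111221222221211123211111111111111111133333333333233111100301131113300330030003302330000000000010000113311331131123311111111111111111233023012311233111100001111111142313230323132334111323032313233222222222231223220002220202122322222222022222232211121212221223222222222222222222222222222222222003333333331333300003330330133330200023002003233000000000000323002003333222232330101333022213233222222222222222222002200222222224433333033333333111111113331333342442222333332334011222033313233421142444231323311111111111112312222222222222232221122222211222244333333333333331111003311333333000000330033333300000000000033334411443344333333111111111111113342440200424442334211020042114244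

def tg5 (b012 b013 b023 b123 b014 b024 b124 b034 b134 b234 : ℕ) : ℕ := Nat.mod (Nat.shiftRight TB5 (Nat.mul 4 (Nat.add b012 (Nat.add (Nat.mul 2 b013) (Nat.add (Nat.mul 4 b023) (Nat.add (Nat.mul 8 b123) (Nat.add (Nat.mul 16 b014) (Nat.add (Nat.mul 32 b024) (Nat.add (Nat.mul 64 b124) (Nat.add (Nat.mul 128 b034) (Nat.add (Nat.mul 256 b134) (Nat.mul 512 b234)))))))))))) 16

def walk5 (n : ℕ) : ℕ → ℕ → ℕ → ℕ → ℕ → ℕ → ℕ → ℕ → ℕ → ℕ → Bool :=
  Nat.rec (fun b012 b013 b023 b123 b014 b024 b124 b034 b134 b234 => Nat.beq (tg5 b012 b013 b023 b123 b014 b024 b124 b034 b134 b234) 4)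
    (fun _ ih b012 b013 b023 b123 b014 b024 b124 b034 b134 b234 => cond (Nat.beq (tg5 b012 b013 b023 b123 b014 b024 b124 b034 b134 b234) 4) true
      (cond (Nat.beq (tg5 b012 b013 b023 b123 b014 b024 b124 b034 b134 b234) 0) (ih b012 b013 b123 b023 b014 b124 b024 b134 b034 b234)
      (cond (Nat.beq (tg5 b012 b013 b023 b123 b014 b024 b124 b034 b134 b234) 1) (ih b012 b023 b013 b123 b024 b014 b124 b034 b234 b134)
      (cond (Nat.beq (tg5 b012 b013 b023 b123 b014 b024 b124 b034 b134 b234) 2) (ih b013 b012 b023 b123 b014 b034 b134 b024 b124 b234)
      (cond (Nat.beq (tg5 b012 b013 b023 b123 b014 b024 b124 b034 b134 b234) 3) (ih b012 b014 b024 b124 b013 b023 b123 b034 b134 b234) false))))) n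

theorem walk_all5 : (B2 fun b012 => B2 fun b013 => B2 fun b023 => B2 fun b123 => B2 fun b014 => B2 fun b024 => B2 fun b124 => B2 fun b034 => B2 fun b134 => B2 fun b234 => or (k5b b012 b013 b023 b123 b014 b024 b124 b034 b134 b234) (walk5 9 b012 b013 b023 b123 b014 b024 b124 b034 b134 b234)) = true := by decide +kernel

end Pool.Agent.H122R2.N6
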