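import Pool.Agent.H122R2.K5.Leaf5
import Pool.Agent.H122R2.N6.Count
import Pool.Agent.H122R2.N6.Bound2

set_option autoImplicit false
set_option maxHeartbeats 4000000
open Finset
open scoped Classical

namespace Pool.Agent.H122R2.N6

section
variable {V : Type}

/-- no five vertices span all ten triples -/
def K53Free (H : Finset (Finset V)) : Prop :=
  ∀ S : Finset V, S.card = 5 → ∃ s ⊆ S, s.card = 3 ∧ s ∉ H

theorem tri_noK5 {H : Finset (Finset V)} (hH : ∀ e ∈ H, e.card = 3) (hF : K53Free H) :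
    NoK5 (tri H) := by
  intro a b c d e
  by_contra hcon
  rw [Bool.not_eq_false] at hcon
  have h4 := Nat.eq_of_beq_eq_true hcon
  simp only [Nat.add_eq] at h4
  have hs := tri_sy H
  have hb := fun x y z => Bt_lt (hs.b x y z)
  have b1 := hb a b c
  have b2 := hb a b d
  have b3 := hb a c d
  have b4 := hb b c d
  have b5 := hb a b e
  have b6 := hb a c e
  have b7 := hb b c e
  have b8 := hb a d e
  have b9 := hb b d e
  have b10 := hb c d e
  have m1 : tri H a b c = 1 := by omega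
  have m2 : tri H a b d = 1 := by omega
  have m3 : tri H a c d = 1 := by omega
  have m4 : tri H b c d = 1 := by omega
  have m5 : tri H a b e = 1 := by omega
  have m6 : tri H a c e = 1 := by omega
  have m7 : tri H b c e = 1 := by omega
  have m8 : tri H a d e = 1 := by omega
  have m9 : tri H b d e = 1 := by omega
  have m10 : tri H c d e = 1 := by omega
  clear b1 b2 b3 b4 b5 b6 b7 b8 b9 b10 h4 hcon hb
  have mem : ∀ x y z : V, tri H x y z = 1 → ({x, y, z} : Finset V) ∈ H := by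
    intro x y z h
    unfold tri at h
    by_contra hn
    rw [if_neg hn] at h
    exact absurd h (by norm_num)
  obtain ⟨hab, hac, hbc⟩ := distinct_of_mem hH (mem _ _ _ m1)
  obtain ⟨-, had, hbd⟩ := distinct_of_mem hH (mem _ _ _ m2)
  obtain ⟨hcd, hce, hde⟩ := distinct_of_mem hH (mem _ _ _ m10)
  obtain ⟨-, hae, hbe⟩ := distinct_of_mem hH (mem _ _ _ m5)
  have hS : ({a, b, c, d, e} : Finset V).card = 5 := by
    rw [card_insert_of_notMem, card_insert_of_notMem, card_insert_of_notMem, card_insert_of_notMem,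
      card_singleton]
    · simpa using hde
    · simp [hcd, hce]
    · simp [hbc, hbd, hbe]
    · simp [hab, hac, had, hae]
  obtain ⟨s, hss, hs3, hsH⟩ := hF _ hS
  obtain ⟨x, y, z, hxy, hxz, hyz, rfl⟩ := card_eq_three.mp hs3
  have hx : x ∈ ({a, b, c, d, e} : Finset V) := hss (by simp)
  have hy : y ∈ ({a, b, c, d, e} : Finset V) := hss (by simp)
  have hz : z ∈ ({a, b, c, d, e} : Finset V) := hss (by simp)
  apply hsH
  apply mem
  clear hss hs3 hsH hS hF hH mem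
  simp only [mem_insert, mem_singleton] at hx hy hz
  have p1 := fun x y z => hs.h213 x y z
  have p2 := fun x y z => hs.h132 x y z
  have p3 := fun x y z => hs.h231 x y z
  have p4 := fun x y z => hs.h312 x y z
  have p5 : ∀ x y z, tri H z y x = tri H x y z := fun x y z => by rw [hs.h213, hs.h231]
  have all : ∀ u v w : V, tri H u v w = 1 → tri H u v w = 1 ∧ tri H v u w = 1 ∧ tri H u w v = 1 ∧
      tri H v w u = 1 ∧ tri H w u v = 1 ∧ tri H w v u = 1 := fun u v w h =>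
    ⟨h, (p1 u v w).trans h, (p2 u v w).trans h, (p3 u v w).trans h, (p4 u v w).trans h,
      (p5 u v w).trans h⟩
  obtain ⟨c11, c12, c13, c14, c15, c16⟩ := all _ _ _ m1
  obtain ⟨c21, c22, c23, c24, c25, c26⟩ := all _ _ _ m2
  obtain ⟨c31, c32, c33, c34, c35, c36⟩ := all _ _ _ m3
  obtain ⟨c41, c42, c43, c44, c45, c46⟩ := all _ _ _ m4
  obtain ⟨c51, c52, c53, c54, c55, c56⟩ := all _ _ _ m5
  obtain ⟨c61, c62, c63, c64, c65, c66⟩ := all _ _ _ m6
  obtain ⟨c71, c72, c73, c74, c75, c76⟩ := all _ _ _ m7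
  obtain ⟨c81, c82, c83, c84, c85, c86⟩ := all _ _ _ m8
  obtain ⟨c91, c92, c93, c94, c95, c96⟩ := all _ _ _ m9
  obtain ⟨d11, d12, d13, d14, d15, d16⟩ := all _ _ _ m10
  clear all p1 p2 p3 p4 p5 hs m1 m2 m3 m4 m5 m6 m7 m8 m9 m10
  rcases hx with h1 | h1 | h1 | h1 | h1 <;> rcases hy with h2 | h2 | h2 | h2 | h2 <;>
    rcases hz with h3 | h3 | h3 | h3 | h3 <;>
    first
      | exact absurd (h1.trans h2.symm) hxy
      | exact absurd (h1.trans h3.symm) hxz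
      | exact absurd (h2.trans h3.symm) hyz
      | (rw [h1, h2, h3]; assumption)

end

section
variable {V : Type} [Fintype V] (E : V → V → V → ℕ)

theorem avg_gen (hE : Sy E) (t : ℕ → ℤ) (A0 A1 A2 A3 A4 R : ℤ)
    (h0 : t 0 = A0) (h1 : t 1 = A0 + A1) (h2 : t 2 = A0 + 2 * A1 + A2)
    (h3 : t 3 = A0 + 3 * A1 + 3 * A2 + A3) (h4 : t 4 = A0 + 4 * A1 + 6 * A2 + 4 * A3 + A4)
    (hb : 45 * T2 E t ≤ R * (Fintype.card V : ℤ) ^ 6) (P : ℝ → ℝ) (lam K : ℝ) (hK : 0 < K)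
    (hpoly : ∀ d : ℝ, 45 * ((A0 : ℝ) + 4 * A1 * d + 6 * A2 * d ^ 2 + 4 * A3 * d ^ 3 + A4 * d ^ 4)
      = K * P d) (hR : (R : ℝ) = K * lam) (hn : 0 < Fintype.card V) :
    ∑ a, ∑ b, P (dn E a b) ≤ lam * (Fintype.card V : ℝ) ^ 2 := by
  have hn' : (0 : ℝ) < (Fintype.card V : ℝ) := by exact_mod_cast hn
  have e1 : T2 E t = ∑ a, ∑ b, (A0 * (Fintype.card V : ℤ) ^ 4
      + 4 * A1 * (Fintype.card V : ℤ) ^ 3 * (∑ c, (E a b c : ℤ))
      + 6 * A2 * (Fintype.card V : ℤ) ^ 2 * (∑ c, (E a b c : ℤ)) ^ 2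
      + 4 * A3 * (Fintype.card V : ℤ) * (∑ c, (E a b c : ℤ)) ^ 3 + A4 * (∑ c, (E a b c : ℤ)) ^ 4) := by
    unfold T2
    exact sum_congr rfl fun a _ => sum_congr rfl fun b _ =>
      mom (E a b) (hE.b a b) t A0 A1 A2 A3 A4 h0 h1 h2 h3 h4
  rw [e1] at hb
  have hb' : (45 : ℝ) * ∑ a, ∑ b, ((A0 : ℝ) * (Fintype.card V : ℝ) ^ 4
      + 4 * A1 * (Fintype.card V : ℝ) ^ 3 * (∑ c, (E a b c : ℝ))
      + 6 * A2 * (Fintype.card V : ℝ) ^ 2 * (∑ c, (E a b c : ℝ)) ^ 2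
      + 4 * A3 * (Fintype.card V : ℝ) * (∑ c, (E a b c : ℝ)) ^ 3 + A4 * (∑ c, (E a b c : ℝ)) ^ 4)
      ≤ R * (Fintype.card V : ℝ) ^ 6 := by exact_mod_cast hb
  have e2 : (45 : ℝ) * ∑ a, ∑ b, ((A0 : ℝ) * (Fintype.card V : ℝ) ^ 4
      + 4 * A1 * (Fintype.card V : ℝ) ^ 3 * (∑ c, (E a b c : ℝ))
      + 6 * A2 * (Fintype.card V : ℝ) ^ 2 * (∑ c, (E a b c : ℝ)) ^ 2
      + 4 * A3 * (Fintype.card V : ℝ) * (∑ c, (E a b c : ℝ)) ^ 3 + A4 * (∑ c, (E a b c : ℝ)) ^ 4)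
      = K * (Fintype.card V : ℝ) ^ 4 * ∑ a, ∑ b, P (dn E a b) := by
    rw [mul_sum, mul_sum]
    refine sum_congr rfl fun a _ => ?_
    rw [mul_sum, mul_sum]
    refine sum_congr rfl fun b _ => ?_
    have e3 : (∑ c, (E a b c : ℝ)) = dn E a b * (Fintype.card V : ℝ) := by
      unfold dn
      field_simp
    rw [e3]
    have e4 := hpoly (dn E a b)
    calc _ = (Fintype.card V : ℝ) ^ 4 * (45 * ((A0 : ℝ) + 4 * A1 * dn E a b + 6 * A2 * dn E a b ^ 2
          + 4 * A3 * dn E a b ^ 3 + A4 * dn E a b ^ 4)) := by ring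
      _ = _ := by rw [e4]; ring
  rw [e2, hR] at hb'
  have h5 : K * (Fintype.card V : ℝ) ^ 4 * ∑ a, ∑ b, P (dn E a b)
      ≤ K * (Fintype.card V : ℝ) ^ 4 * (lam * (Fintype.card V : ℝ) ^ 2) := by
    calc _ ≤ _ := hb'
      _ = _ := by ring
  exact le_of_mul_le_mul_left h5 (by positivity)

/-- the functional of a codegree density for `K_5^3` -/
noncomputable def ph5 (b k d : ℝ) : ℝ := d + (d - 1 / 2) * (d - 1) * (b + k * (d - 1 / 2))

end
end Pool.Agent.H122R2.N6
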