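import Pool.Agent.H122R2.N6.Defs

/-! Leaf check for `K_5^3`-free 3-graphs. -/

set_option autoImplicit false
set_option maxRecDepth 100000

namespace Pool.Agent.H122R2.N6

def k5b (x y z u v w r s t p : ℕ) : Bool := Nat.beq (Nat.add x (Nat.add y (Nat.add z (Nat.add u (Nat.add v (Nat.add w (Nat.add r (Nat.add s (Nat.add t p))))))))) 10
/-- the leaf inequality for all `K_5^3`-free extensions of a given structure on the first five vertices -/
def chk5 (q4 : ℕ → ℕ → ℕ → ℕ) (q2 : ℕ → ℕ → ℕ) (C : ℕ) (b012 b013 b023 b123 b014 b024 b124 b034 b134 b234 : ℕ) : Bool :=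
  B2 fun b015 => B2 fun b025 => B2 fun b125 => B2 fun b035 => B2 fun b135 => B2 fun b235 => or (k5b b012 b013 b023 b123 b015 b025 b125 b035 b135 b235) (B2 fun b045 => B2 fun b145 => B2 fun b245 => or (k5b b012 b014 b024 b124 b015 b025 b125 b045 b145 b245) (B2 fun b345 => or (k5b b013 b014 b034 b134 b015 b035 b135 b045 b145 b345) (or (k5b b023 b024 b034 b234 b025 b035 b235 b045 b245 b345) (or (k5b b123 b124 b134 b234 b125 b135 b235 b145 b245 b345) (Nat.ble (Nat.add (leaf4 q4 b012 b013 b023 b123 b014 b024 b124 b034 b134 b234 b015 b025 b125 b035 b135 b235 b045 b145 b245 b345) (leaf2 q2 b012 b013 b023 b123 b014 b024 b124 b034 b134 b234 b015 b025 b125 b035 b135 b235 b045 b145 b245 b345)) C)))))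

end Pool.Agent.H122R2.N6
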