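import Pool.Agent.H122R2.K5.ChkE2
import Pool.Agent.H122R2.K5.PsdE2
import Pool.Agent.H122R2.K5.Count5

set_option autoImplicit false
set_option maxRecDepth 100000
set_option maxHeartbeats 4000000
open Finset

namespace Pool.Agent.H122R2.N6.E2

theorem hc (b012 b013 b023 b123 b014 b024 b124 b034 b134 b234 : ℕ) (hb012 : Bt b012) (hb013 : Bt b013) (hb023 : Bt b023) (hb123 : Bt b123) (hb014 : Bt b014) (hb024 : Bt b024) (hb124 : Bt b124) (hb034 : Bt b034) (hb134 : Bt b134) (hb234 : Bt b234) (ht : tg5 b012 b013 b023 b123 b014 b024 b124 b034 b134 b234 = 4) :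
    chk5 q4 q2 CST b012 b013 b023 b123 b014 b024 b124 b034 b134 b234 = true := by
  have h : part b012 b013 b023 = true := by
    rcases hb012 with rfl | rfl <;> rcases hb013 with rfl | rfl <;> rcases hb023 with rfl | rfl
    exacts [part000, part001, part010, part011, part100, part101, part110, part111]
  have h2 := (B2_true (B2_true (B2_true (B2_true (B2_true (B2_true (B2_true h hb123) hb014) hb024) hb124) hb034) hb134) hb234)
  refine or_false_left h2 ?_
  rw [ht]
  rfl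

theorem rng : (nall 16 fun c => and (Nat.blt (rho c) 5) (nall 64 fun i => Nat.blt (pc c i) 64)) = true := by
  decide +kernel

theorem rho_lt {c : ℕ} (h : c < 16) : rho c < 5 := by
  have := nall_true rng c h
  rw [Bool.and_eq_true] at this
  exact Nat.le_of_ble_eq_true this.1

theorem pc_lt {c i : ℕ} (h : c < 16) (hi : i < 64) : pc c i < 64 := by
  have := nall_true rng c h
  rw [Bool.and_eq_true] at this
  exact Nat.le_of_ble_eq_true (nall_true this.2 i hi)

theorem g4_all {r i j : ℕ} (hr : r < 5) (hi : i < 64) (hj : j < 64) : g4 r i j = true := by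
  have h : chk4 r = true := by
    interval_cases r
    exacts [cp0, cp1, cp2, cp3, cp4]
  exact nall_true (nall_true h i hi) j hj

theorem expand (s : Finset ℕ) (w u v : ℕ → ℕ) (B : ℤ) :
    ∑ k ∈ s, (w k : ℤ) * ((u k : ℤ) - B) * ((v k : ℤ) - B) =
      ∑ k ∈ s, (w k : ℤ) * ((u k : ℤ) * (v k : ℤ)) + B ^ 2 * ∑ k ∈ s, (w k : ℤ)
        - B * (∑ k ∈ s, (w k : ℤ) * (u k : ℤ) + ∑ k ∈ s, (w k : ℤ) * (v k : ℤ)) := by
  rw [mul_add, mul_sum, mul_sum, mul_sum, ← sum_add_distrib, ← sum_add_distrib, ← sum_sub_distrib]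
  exact sum_congr rfl fun k _ => by ring

theorem hq4 (c i j : ℕ) (hc : c < 16) (hi : i < 64) (hj : j < 64) : (q4 c i j : ℤ) =
    ∑ k ∈ range 128, (w4 (rho c) k : ℤ) * ((l4 (rho c) (pc c i) k : ℤ) - 16384) *
      ((l4 (rho c) (pc c j) k : ℤ) - 16384) + 8796093022208 := by
  have h := Nat.eq_of_beq_eq_true (g4_all (rho_lt hc) (pc_lt hc hi) (pc_lt hc hj))
  unfold ll sw sl at h
  rw [nsum_eq, nsum_eq, nsum_eq, nsum_eq] at h
  have h2 := congrArg (fun n : ℕ => (n : ℤ)) h
  simp only [Nat.add_eq, Nat.mul_eq] at h2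
  push_cast at h2
  rw [expand (range 128) (fun k => w4 (rho c) k) (fun k => l4 (rho c) (pc c i) k)
    (fun k => l4 (rho c) (pc c j) k) 16384]
  have h3 : (q4 c i j : ℤ) = (tq (rho c) (pc c i) (pc c j) : ℤ) := rfl
  rw [h3]
  linarith

theorem hq2 (i j : ℕ) (hi : i < 16) (hj : j < 16) : (q2 i j : ℤ) =
    ∑ k ∈ range 24, (w2 k : ℤ) * ((l2 i k : ℤ) - 16384) * ((l2 j k : ℤ) - 16384)
      + (2199023255552 + (t2 (kk i j) : ℤ)) := by
  have h := Nat.eq_of_beq_eq_true (nall_true (nall_true cpb i hi) j hj)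
  unfold ll2 sw2 sl2 at h
  rw [nsum_eq, nsum_eq, nsum_eq, nsum_eq] at h
  have h2 := congrArg (fun n : ℕ => (n : ℤ)) h
  simp only [Nat.add_eq, Nat.mul_eq] at h2
  push_cast at h2
  rw [expand (range 24) (fun k => w2 k) (fun k => l2 i k) (fun k => l2 j k) 16384]
  linarith

theorem t2_0 : t2 0 = 1133871366144 := by decide +kernel
theorem t2_1 : t2 1 = 953482739712 := by decide +kernel
theorem t2_2 : t2 2 = 1047972020224 := by decide +kernel
theorem t2_3 : t2 3 = 1520418422784 := by decide +kernel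
theorem t2_4 : t2 4 = 2473901162496 := by decide +kernel

theorem avg {V : Type} [Fintype V] {E : V → V → V → ℕ} (hE : Sy E) (hK : NoK5 E)
    (hn : 0 < Fintype.card V) :
    ∑ a, ∑ b, ph5 (1) (1 / 6) (dn E a b) ≤ 3 / 4 * (Fintype.card V : ℝ) ^ 2 := by
  have hb := bound2 E hE 128 24 CST q4 (fun c k => w4 (rho c) k) (fun c i k => l4 (rho c) (pc c i) k)
    q2 w2 l2 16384 8796093022208 2199023255552 (fun k => (t2 k : ℤ)) hq4 hq2
    (leaf_all5 hE hK cs4 cs2 hc)
  have hC : (CST : ℤ) = 314391606067200 := rfl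
  rw [hC] at hb
  have hb2 : 45 * Pool.Agent.H122R2.N6.T2 E (fun k => (t2 k : ℤ)) ≤ 83494164234240 * (Fintype.card V : ℤ) ^ 6 := by linarith
  refine avg_gen E hE (fun k => (t2 k : ℤ)) (1133871366144) (-180388626432) (274877906944) (103079215104) (0) 83494164234240
    ?_ ?_ ?_ ?_ ?_ hb2 (ph5 (1) (1 / 6)) (3 / 4) 111325552312320 (by norm_num) ?_ (by norm_num) hn
  · show ((t2 0 : ℕ) : ℤ) = _
    rw [t2_0]; norm_num
  · show ((t2 1 : ℕ) : ℤ) = _
    rw [t2_1]; norm_num
  · show ((t2 2 : ℕ) : ℤ) = _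
    rw [t2_2]; norm_num
  · show ((t2 3 : ℕ) : ℤ) = _
    rw [t2_3]; norm_num
  · show ((t2 4 : ℕ) : ℤ) = _
    rw [t2_4]; norm_num
  · intro d
    unfold ph5
    push_cast
    ring

end Pool.Agent.H122R2.N6.E2
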