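import Pool.Agent.H122R2.K5.Lower5

/-! Turán's `K_4^3`-free 3-graph on `3 m` vertices. -/

set_option autoImplicit false
open Finset
open scoped Classical

namespace Pool.Agent.H122R2.K5

/-- the three parts -/
def Pt {n : ℕ} (k : ℕ) : Finset (Fin n) := univ.filter fun i => i.val % 3 = k

theorem card_Pt (m k : ℕ) (hk : k < 3) : (Pt (n := 3 * m) k).card = m := by
  have : (Pt (n := 3 * m) k) =
      (univ : Finset (Fin m)).image (fun j => (⟨3 * j.val + k, by omega⟩ : Fin (3 * m))) := by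
    ext i
    unfold Pt
    simp only [mem_filter, mem_univ, true_and, mem_image]
    constructor
    · intro h
      refine ⟨⟨i.val / 3, by omega⟩, ?_⟩
      apply Fin.ext
      show 3 * (i.val / 3) + k = i.val
      omega
    · rintro ⟨j, rfl⟩
      show (3 * j.val + k) % 3 = k
      omega
  rw [this, card_image_of_injective, card_univ, Fintype.card_fin]
  intro a b h
  have h' : 3 * a.val + k = 3 * b.val + k := congrArg Fin.val h
  apply Fin.ext
  omega

/-- number of elements in part `k` -/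
def cnt {n : ℕ} (k : ℕ) (e : Finset (Fin n)) : ℕ := (e.filter fun i => i.val % 3 = k).card

/-- the allowed patterns -/
def Al (a b c : ℕ) : Prop :=
  (a = 1 ∧ b = 1 ∧ c = 1) ∨ (a = 2 ∧ b = 1 ∧ c = 0) ∨ (a = 0 ∧ b = 2 ∧ c = 1) ∨ (a = 1 ∧ b = 0 ∧ c = 2)

/-- Turán's 3-graph -/
noncomputable def tur (n : ℕ) : Finset (Finset (Fin n)) :=
  ((univ : Finset (Fin n)).powersetCard 3).filter fun e => Al (cnt 0 e) (cnt 1 e) (cnt 2 e)

theorem cnt_sum {n : ℕ} (e : Finset (Fin n)) : cnt 0 e + cnt 1 e + cnt 2 e = e.card := by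
  unfold cnt
  rw [card_filter, card_filter, card_filter, ← sum_add_distrib, ← sum_add_distrib, card_eq_sum_ones]
  refine sum_congr rfl fun i _ => ?_
  have : i.val % 3 = 0 ∨ i.val % 3 = 1 ∨ i.val % 3 = 2 := by omega
  rcases this with h | h | h <;> simp [h]

theorem cnt_insert {n : ℕ} (k : ℕ) (e : Finset (Fin n)) (c : Fin n) (hc : c ∉ e) :
    cnt k (insert c e) = cnt k e + (if c.val % 3 = k then 1 else 0) := by
  unfold cnt
  rw [filter_insert]
  split_ifs with h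
  · rw [card_insert_of_notMem]
    intro h'
    exact hc (mem_filter.mp h').1
  · rfl

theorem tur_card (n : ℕ) : ∀ e ∈ tur n, e.card = 3 := fun _ he =>
  (mem_powersetCard.mp (mem_filter.mp he).1).2

theorem tur_free (n : ℕ) (S : Finset (Fin n)) (hS : S.card = 4) :
    ∃ s ⊆ S, s.card = 3 ∧ s ∉ tur n := by
  have hsum := cnt_sum S
  rw [hS] at hsum
  -- removing a vertex of part k
  have key : ∀ k : ℕ, 0 < cnt k S → ∃ x ∈ S, x.val % 3 = k := by
    intro k hk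
    unfold cnt at hk
    obtain ⟨x, hx⟩ := card_pos.mp hk
    exact ⟨x, (mem_filter.mp hx).1, (mem_filter.mp hx).2⟩
  have rem : ∀ x ∈ S, ∀ k, cnt k S = cnt k (S.erase x) + (if x.val % 3 = k then 1 else 0) := by
    intro x hx k
    have := cnt_insert k (S.erase x) x (notMem_erase x S)
    rwa [insert_erase hx] at this
  have fin : ∀ x ∈ S, ¬ Al (cnt 0 (S.erase x)) (cnt 1 (S.erase x)) (cnt 2 (S.erase x)) →
      ∃ s ⊆ S, s.card = 3 ∧ s ∉ tur n := by
    intro x hx h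
    refine ⟨S.erase x, erase_subset _ _, by rw [card_erase_of_mem hx, hS], fun hm => ?_⟩
    exact h (mem_filter.mp hm).2
  by_contra hcon
  have hall : ∀ x ∈ S, Al (cnt 0 (S.erase x)) (cnt 1 (S.erase x)) (cnt 2 (S.erase x)) := by
    intro x hx
    by_contra h
    exact hcon (fin x hx h)
  have c0 : 0 < cnt 0 S → Al (cnt 0 S - 1) (cnt 1 S) (cnt 2 S) := by
    intro h
    obtain ⟨x, hx, hk⟩ := key 0 h
    have h1 := hall x hx
    have r0 := rem x hx 0
    have r1 := rem x hx 1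
    have r2 := rem x hx 2
    rw [hk] at r0 r1 r2
    norm_num at r0 r1 r2
    rw [r0, r1, r2]
    simpa using h1
  have c1 : 0 < cnt 1 S → Al (cnt 0 S) (cnt 1 S - 1) (cnt 2 S) := by
    intro h
    obtain ⟨x, hx, hk⟩ := key 1 h
    have h1 := hall x hx
    have r0 := rem x hx 0
    have r1 := rem x hx 1
    have r2 := rem x hx 2
    rw [hk] at r0 r1 r2
    norm_num at r0 r1 r2
    rw [r0, r1, r2]
    simpa using h1
  have c2 : 0 < cnt 2 S → Al (cnt 0 S) (cnt 1 S) (cnt 2 S - 1) := by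
    intro h
    obtain ⟨x, hx, hk⟩ := key 2 h
    have h1 := hall x hx
    have r0 := rem x hx 0
    have r1 := rem x hx 1
    have r2 := rem x hx 2
    rw [hk] at r0 r1 r2
    norm_num at r0 r1 r2
    rw [r0, r1, r2]
    simpa using h1
  unfold Al at c0 c1 c2
  generalize cnt 0 S = a at *
  generalize cnt 1 S = b at *
  generalize cnt 2 S = c at *
  clear hall fin rem key hcon
  omega

theorem ins_mem {n : ℕ} (P : Finset (Fin n)) (hP : P.card = 2) (c : Fin n) (hc : c ∉ P)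
    (h : Al (cnt 0 P + (if c.val % 3 = 0 then 1 else 0)) (cnt 1 P + (if c.val % 3 = 1 then 1 else 0))
      (cnt 2 P + (if c.val % 3 = 2 then 1 else 0))) : insert c P ∈ tur n := by
  unfold tur
  rw [mem_filter, mem_powersetCard]
  refine ⟨⟨subset_univ _, by rw [card_insert_of_notMem hc, hP]⟩, ?_⟩
  rw [cnt_insert 0 P c hc, cnt_insert 1 P c hc, cnt_insert 2 P c hc]
  exact h

theorem card_diff (m k : ℕ) (hk : k < 3) (P : Finset (Fin (3 * m))) :
    (Pt k \ P).card = m - cnt k P := by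
  have h1 : (Pt k \ P).card = (Pt (n := 3 * m) k).card - (P ∩ Pt k).card := by
    rw [card_sdiff]
  rw [h1, card_Pt m k hk]
  congr 1
  unfold cnt Pt
  congr 1
  ext x
  simp

theorem disj_Pt {n : ℕ} (P : Finset (Fin n)) (j k : ℕ) (hjk : j ≠ k) : Disjoint (Pt j \ P) (Pt k \ P) := by
  rw [disjoint_left]
  intro x h1 h2
  have a := (mem_filter.mp (mem_sdiff.mp h1).1).2
  have b := (mem_filter.mp (mem_sdiff.mp h2).1).2
  exact hjk (a.symm.trans b)

/-- codegree of an inner pair -/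
theorem inner (m k l : ℕ) (hl : l < 3) (P : Finset (Fin (3 * m))) (hP : P.card = 2) (h0 : cnt k P = 2)
    (hkl : (k = 0 ∧ l = 1) ∨ (k = 1 ∧ l = 2) ∨ (k = 2 ∧ l = 0)) : m ≤ cdg (tur (3 * m)) P := by
  have hs := cnt_sum P
  rw [hP] at hs
  have hcl : cnt l P = 0 := by
    rcases hkl with ⟨rfl, rfl⟩ | ⟨rfl, rfl⟩ | ⟨rfl, rfl⟩ <;> omega
  have hc := card_diff m l hl P
  rw [hcl, Nat.sub_zero] at hc
  refine hc.symm.le.trans ?_
  refine cdg_ge _ _ _ disjoint_sdiff ?_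
  intro c hcT
  have hcP := (mem_sdiff.mp hcT).2
  have hck := (mem_filter.mp (mem_sdiff.mp hcT).1).2
  refine ins_mem P hP c hcP ?_
  rw [hck]
  unfold Al
  rcases hkl with ⟨rfl, rfl⟩ | ⟨rfl, rfl⟩ | ⟨rfl, rfl⟩ <;> norm_num <;> omega

/-- codegree of a cross pair -/
theorem cross (m k l r : ℕ) (hk : k < 3) (hr : r < 3) (P : Finset (Fin (3 * m))) (hP : P.card = 2)
    (hm : 1 ≤ m) (h0 : cnt k P = 1) (h1 : cnt l P = 1)
    (hkl : (k = 0 ∧ l = 1 ∧ r = 2) ∨ (k = 1 ∧ l = 2 ∧ r = 0) ∨ (k = 2 ∧ l = 0 ∧ r = 1)) :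
    2 * m - 1 ≤ cdg (tur (3 * m)) P := by
  have hs := cnt_sum P
  rw [hP] at hs
  have hcr : cnt r P = 0 := by
    rcases hkl with ⟨rfl, rfl, rfl⟩ | ⟨rfl, rfl, rfl⟩ | ⟨rfl, rfl, rfl⟩ <;> omega
  have hc1 := card_diff m k hk P
  have hc2 := card_diff m r hr P
  rw [hcr, Nat.sub_zero] at hc2
  rw [h0] at hc1
  have hne : k ≠ r := by
    rcases hkl with ⟨rfl, rfl, rfl⟩ | ⟨rfl, rfl, rfl⟩ | ⟨rfl, rfl, rfl⟩ <;> omega
  have hc : ((Pt k \ P) ∪ (Pt r \ P)).card = 2 * m - 1 := by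
    rw [card_union_of_disjoint (disj_Pt P k r hne), hc1, hc2]
    omega
  rw [← hc]
  refine cdg_ge _ _ _ ?_ ?_
  · rw [disjoint_left]
    intro x hx hy
    rcases mem_union.mp hy with h | h
    · exact (mem_sdiff.mp h).2 hx
    · exact (mem_sdiff.mp h).2 hx
  intro c hcT
  have hcP : c ∉ P := by
    rcases mem_union.mp hcT with h | h
    · exact (mem_sdiff.mp h).2
    · exact (mem_sdiff.mp h).2
  refine ins_mem P hP c hcP ?_
  unfold Al
  rcases mem_union.mp hcT with h | h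
  · have hck := (mem_filter.mp (mem_sdiff.mp h).1).2
    rw [hck]
    rcases hkl with ⟨rfl, rfl, rfl⟩ | ⟨rfl, rfl, rfl⟩ | ⟨rfl, rfl, rfl⟩ <;> norm_num <;> omega
  · have hck := (mem_filter.mp (mem_sdiff.mp h).1).2
    rw [hck]
    rcases hkl with ⟨rfl, rfl, rfl⟩ | ⟨rfl, rfl, rfl⟩ | ⟨rfl, rfl, rfl⟩ <;> norm_num <;> omega

theorem lower4 (m : ℕ) (hm : 1 ≤ m) (p : ℝ) (hp : 0 ≤ p) :
    3 * (m : ℝ) ^ 2 * ((2 * m - 1 : ℕ) : ℝ) ^ p + 3 * ((m : ℝ) * ((m : ℝ) - 1) / 2) * (m : ℝ) ^ p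
      ≤ ∑ P ∈ (univ : Finset (Fin (3 * m))).powersetCard 2, (cdg (tur (3 * m)) P : ℝ) ^ p := by
  set U := (univ : Finset (Fin (3 * m))).powersetCard 2 with hU
  set Q : Finset (Fin (3 * m)) → Prop := fun P => cnt 0 P = 2 ∨ cnt 1 P = 2 ∨ cnt 2 P = 2 with hQ
  rw [← sum_filter_add_sum_filter_not U Q]
  have nU : (U.card : ℝ) = (3 * m : ℝ) * ((3 * m : ℝ) - 1) / 2 := by
    rw [hU, card_powersetCard, card_univ, Fintype.card_fin, Nat.cast_choose_two]
    push_cast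
    ring
  have nIJ : ((U.filter Q).card : ℝ) + ((U.filter fun P => ¬ Q P).card : ℝ) = (U.card : ℝ) := by
    exact_mod_cast card_filter_add_card_filter_not (s := U) Q
  have sub : ∀ (k : ℕ) (P : Finset (Fin (3 * m))), P.card = 2 → cnt k P = 2 → P ⊆ Pt k := by
    intro k P hP h
    unfold cnt at h
    have h1 : P.filter (fun i => i.val % 3 = k) = P :=
      eq_of_subset_of_card_le (filter_subset _ _) (by omega)
    intro x hx
    rw [← h1] at hx
    exact mem_filter.mpr ⟨mem_univ _, (mem_filter.mp hx).2⟩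
  have nI : ((U.filter Q).card : ℝ) ≤ 3 * ((m : ℝ) * ((m : ℝ) - 1) / 2) := by
    have h1 : U.filter Q ⊆ ((Pt 0).powersetCard 2 ∪ (Pt 1).powersetCard 2) ∪ (Pt 2).powersetCard 2 := by
      intro P hP
      have h2 := (mem_powersetCard.mp (mem_filter.mp hP).1).2
      rcases (mem_filter.mp hP).2 with h | h | h
      · exact mem_union_left _ (mem_union_left _ (mem_powersetCard.mpr ⟨sub 0 P h2 h, h2⟩))
      · exact mem_union_left _ (mem_union_right _ (mem_powersetCard.mpr ⟨sub 1 P h2 h, h2⟩))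
      · exact mem_union_right _ (mem_powersetCard.mpr ⟨sub 2 P h2 h, h2⟩)
    have h3 : (U.filter Q).card ≤ m.choose 2 + m.choose 2 + m.choose 2 := by
      refine (card_le_card h1).trans ((card_union_le _ _).trans ?_)
      have h4 := card_union_le ((Pt (n := 3 * m) 0).powersetCard 2) ((Pt (n := 3 * m) 1).powersetCard 2)
      rw [card_powersetCard, card_powersetCard, card_Pt m 0 (by norm_num), card_Pt m 1 (by norm_num)] at h4
      rw [card_powersetCard 2 (Pt 2), card_Pt m 2 (by norm_num)]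
      omega
    have h5 : ((U.filter Q).card : ℝ) ≤ ((m.choose 2 + m.choose 2 + m.choose 2 : ℕ) : ℝ) := by
      exact_mod_cast h3
    push_cast at h5
    rw [Nat.cast_choose_two] at h5
    linarith
  have bI : ((U.filter Q).card : ℝ) * (m : ℝ) ^ p ≤ ∑ P ∈ U.filter Q, (cdg (tur (3 * m)) P : ℝ) ^ p := by
    rw [← nsmul_eq_mul, ← sum_const]
    refine sum_le_sum fun P hP => ?_
    have h2 := (mem_powersetCard.mp (mem_filter.mp hP).1).2
    refine Real.rpow_le_rpow (by positivity) ?_ hp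
    have : m ≤ cdg (tur (3 * m)) P := by
      rcases (mem_filter.mp hP).2 with h | h | h
      · exact inner m 0 1 (by norm_num) P h2 h (by omega)
      · exact inner m 1 2 (by norm_num) P h2 h (by omega)
      · exact inner m 2 0 (by norm_num) P h2 h (by omega)
    exact_mod_cast this
  have bJ : ((U.filter fun P => ¬ Q P).card : ℝ) * ((2 * m - 1 : ℕ) : ℝ) ^ p
      ≤ ∑ P ∈ U.filter (fun P => ¬ Q P), (cdg (tur (3 * m)) P : ℝ) ^ p := by
    rw [← nsmul_eq_mul, ← sum_const]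
    refine sum_le_sum fun P hP => ?_
    have h2 := (mem_powersetCard.mp (mem_filter.mp hP).1).2
    refine Real.rpow_le_rpow (by positivity) ?_ hp
    have hs := cnt_sum P
    rw [h2] at hs
    have hn : ¬ (cnt 0 P = 2 ∨ cnt 1 P = 2 ∨ cnt 2 P = 2) := (mem_filter.mp hP).2
    have : 2 * m - 1 ≤ cdg (tur (3 * m)) P := by
      have hc : (cnt 0 P = 1 ∧ cnt 1 P = 1) ∨ (cnt 1 P = 1 ∧ cnt 2 P = 1) ∨ (cnt 2 P = 1 ∧ cnt 0 P = 1) := by
        omega
      rcases hc with ⟨a, b⟩ | ⟨a, b⟩ | ⟨a, b⟩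
      · exact cross m 0 1 2 (by norm_num) (by norm_num) P h2 hm a b (by omega)
      · exact cross m 1 2 0 (by norm_num) (by norm_num) P h2 hm a b (by omega)
      · exact cross m 2 0 1 (by norm_num) (by norm_num) P h2 hm a b (by omega)
    exact_mod_cast this
  have hxy : (m : ℝ) ^ p ≤ ((2 * m - 1 : ℕ) : ℝ) ^ p :=
    Real.rpow_le_rpow (by positivity) (by exact_mod_cast (by omega : m ≤ 2 * m - 1)) hp
  have h6 := mul_nonneg (sub_nonneg.mpr nI) (sub_nonneg.mpr hxy)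
  have h7 : ((U.filter fun P => ¬ Q P).card : ℝ) = (3 * m : ℝ) * ((3 * m : ℝ) - 1) / 2
      - ((U.filter Q).card : ℝ) := by
    rw [← nU]; linarith
  rw [h7] at bJ
  nlinarith

/-- the constant is attained asymptotically -/
theorem sharp4 (p : ℝ) (hp : 0 ≤ p) (c : ℝ) (hc : c < (1 + 2 ^ (p + 1)) / (2 * 3 ^ (p + 1))) :
    ∃ N : ℕ, ∀ m : ℕ, N ≤ m → c * ((3 * m : ℕ) : ℝ) ^ (p + 2)
      < ∑ P ∈ (univ : Finset (Fin (3 * m))).powersetCard 2, (cdg (tur (3 * m)) P : ℝ) ^ p := by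
  have t0 := tendsto_one_div_atTop_nhds_zero_nat (𝕜 := ℝ)
  have t1 : Filter.Tendsto (fun m : ℕ => (1 : ℝ) - 1 / (m : ℝ)) Filter.atTop (nhds 1) := by
    simpa using t0.const_sub 1
  have t1' : Filter.Tendsto (fun m : ℕ => (1 : ℝ) - 1 / 2 * (1 / (m : ℝ))) Filter.atTop (nhds 1) := by
    have h := (t0.const_mul (1 / 2 : ℝ)).const_sub 1
    rw [mul_zero, sub_zero] at h
    exact h
  have t2 : Filter.Tendsto (fun m : ℕ => ((1 : ℝ) - 1 / 2 * (1 / (m : ℝ))) ^ p) Filter.atTop (nhds 1) := by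
    have := t1'.rpow_const (p := p) (Or.inl one_ne_zero)
    simpa using this
  have t3 : Filter.Tendsto (fun m : ℕ => (2 / 3 : ℝ) ^ p / 3 * ((1 : ℝ) - 1 / 2 * (1 / (m : ℝ))) ^ p
      + (1 / 3 : ℝ) ^ p / 6 * ((1 : ℝ) - 1 / (m : ℝ))) Filter.atTop
      (nhds ((2 / 3 : ℝ) ^ p / 3 * 1 + (1 / 3 : ℝ) ^ p / 6 * 1)) :=
    (t2.const_mul _).add (t1.const_mul _)
  have hval : (1 + (2 : ℝ) ^ (p + 1)) / (2 * 3 ^ (p + 1)) = (2 / 3 : ℝ) ^ p / 3 * 1 + (1 / 3 : ℝ) ^ p / 6 * 1 := by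
    rw [Real.rpow_add_one (by norm_num), Real.rpow_add_one (by norm_num),
      Real.div_rpow (by norm_num) (by norm_num), Real.div_rpow (by norm_num) (by norm_num), Real.one_rpow]
    have h3 : (0 : ℝ) < 3 ^ p := Real.rpow_pos_of_pos (by norm_num) _
    field_simp
    ring
  rw [hval] at hc
  obtain ⟨N, hN⟩ := Filter.eventually_atTop.mp (t3.eventually (lt_mem_nhds hc))
  refine ⟨max N 1, fun m hm => ?_⟩
  have hm1 : 1 ≤ m := (le_max_right _ _).trans hm
  have hmp : (0 : ℝ) < (m : ℝ) := by exact_mod_cast hm1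
  have h1 := hN m ((le_max_left _ _).trans hm)
  refine lt_of_lt_of_le ?_ (lower4 m hm1 p hp)
  have h2 : (0 : ℝ) < ((3 * m : ℕ) : ℝ) := by push_cast; linarith
  have h3 : 0 < ((3 * m : ℕ) : ℝ) ^ (p + 2) := Real.rpow_pos_of_pos h2 _
  have h4 := mul_lt_mul_of_pos_right h1 h3
  refine lt_of_lt_of_eq h4 ?_
  have e1 : ((2 * m - 1 : ℕ) : ℝ) = ((3 * m : ℕ) : ℝ) * (2 / 3 * (1 - 1 / 2 * (1 / (m : ℝ)))) := by
    rw [Nat.cast_sub (by omega)]
    push_cast
    field_simp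
  have h5 : (0 : ℝ) ≤ 1 - 1 / 2 * (1 / (m : ℝ)) := by
    have : 1 / (m : ℝ) ≤ 1 := by
      rw [div_le_one hmp]
      exact_mod_cast hm1
    linarith
  have e2 : (m : ℝ) = ((3 * m : ℕ) : ℝ) * (1 / 3) := by push_cast; ring
  have e3 : (m : ℝ) ^ p = ((3 * m : ℕ) : ℝ) ^ p * (1 / 3) ^ p := by
    rw [← Real.mul_rpow h2.le (by norm_num), ← e2]
  rw [e1, Real.mul_rpow h2.le (by positivity), Real.mul_rpow (by norm_num) h5, Real.rpow_add h2,
    Real.rpow_two, e3]
  have e4 : (m : ℝ) - 1 = (m : ℝ) * (1 - 1 / (m : ℝ)) := by field_simp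
  rw [e4]
  push_cast
  ring

end Pool.Agent.H122R2.K5
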