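import Mathlib

/-! The 3-graph of all triples meeting both parts of a bipartition. -/

set_option autoImplicit false
open Finset
open scoped Classical

namespace Pool.Agent.H122R2.K5

/-- the first part -/
def PA (n m : ℕ) : Finset (Fin n) := univ.filter fun i => i.val < m
/-- the second part -/
def PB (n m : ℕ) : Finset (Fin n) := univ.filter fun i => ¬ i.val < m

theorem card_PA (m : ℕ) : (PA (2 * m) m).card = m := by
  unfold PA
  have : (univ.filter fun i : Fin (2 * m) => i.val < m) =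
      (univ : Finset (Fin m)).map (Fin.castLEEmb (by omega)) := by
    ext i
    simp only [mem_filter, mem_univ, true_and, mem_map]
    constructor
    · intro h
      exact ⟨⟨i.val, h⟩, rfl⟩
    · rintro ⟨j, rfl⟩
      exact j.2
  rw [this, card_map, card_univ, Fintype.card_fin]

theorem card_PB (m : ℕ) : (PB (2 * m) m).card = m := by
  have h : (PA (2 * m) m).card + (PB (2 * m) m).card = 2 * m := by
    unfold PA PB
    rw [card_filter_add_card_filter_not, card_univ, Fintype.card_fin]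
  have := card_PA m
  omega

/-- all triples that meet both parts -/
noncomputable def bip (n m : ℕ) : Finset (Finset (Fin n)) :=
  ((univ : Finset (Fin n)).powersetCard 3).filter fun e => ¬ e ⊆ PA n m ∧ ¬ e ⊆ PB n m

theorem mem_or (n m : ℕ) (i : Fin n) : i ∈ PA n m ∨ i ∈ PB n m := by
  unfold PA PB
  by_cases h : i.val < m
  · left; exact mem_filter.mpr ⟨mem_univ _, h⟩
  · right; exact mem_filter.mpr ⟨mem_univ _, h⟩

theorem not_both (n m : ℕ) (i : Fin n) (h1 : i ∈ PA n m) (h2 : i ∈ PB n m) : False := by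
  unfold PA at h1
  unfold PB at h2
  exact (mem_filter.mp h2).2 (mem_filter.mp h1).2

theorem bip_card (n m : ℕ) : ∀ e ∈ bip n m, e.card = 3 := fun e he =>
  (mem_powersetCard.mp (mem_filter.mp he).1).2

theorem bip_free (n m : ℕ) (S : Finset (Fin n)) (hS : S.card = 5) :
    ∃ s ⊆ S, s.card = 3 ∧ s ∉ bip n m := by
  have h1 : (S.filter (· ∈ PA n m)).card + (S.filter (· ∉ PA n m)).card = 5 := by
    rw [card_filter_add_card_filter_not, hS]
  rcases le_or_gt 3 (S.filter (· ∈ PA n m)).card with h | h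
  · obtain ⟨s, hs, hs3⟩ := exists_subset_card_eq h
    refine ⟨s, hs.trans (filter_subset _ _), hs3, fun hm => ?_⟩
    exact (mem_filter.mp hm).2.1 fun x hx => (mem_filter.mp (hs hx)).2
  · have h' : 3 ≤ (S.filter (· ∉ PA n m)).card := by omega
    obtain ⟨s, hs, hs3⟩ := exists_subset_card_eq h'
    refine ⟨s, hs.trans (filter_subset _ _), hs3, fun hm => ?_⟩
    exact (mem_filter.mp hm).2.2 fun x hx =>
      (mem_or n m x).resolve_left (mem_filter.mp (hs hx)).2

/-- codegree -/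
noncomputable def cdg {n : ℕ} (G : Finset (Finset (Fin n))) (P : Finset (Fin n)) : ℕ :=
  (G.filter (P ⊆ ·)).card

theorem cdg_ge {n : ℕ} (G : Finset (Finset (Fin n))) (P T : Finset (Fin n)) (hd : Disjoint P T)
    (h : ∀ c ∈ T, insert c P ∈ G) : T.card ≤ cdg G P := by
  unfold cdg
  have hinj : Set.InjOn (fun c => insert c P) (T : Set (Fin n)) := by
    intro c hc d hd' hcd
    have hcP : c ∉ P := fun hx => (disjoint_left.mp hd hx) hc
    have h1 : c ∈ insert d P := by
      have : c ∈ insert c P := mem_insert_self c P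
      exact (show insert c P = insert d P from hcd) ▸ this
    rcases mem_insert.mp h1 with h2 | h2
    · exact h2
    · exact absurd h2 hcP
  rw [← card_image_of_injOn hinj]
  refine card_le_card ?_
  intro e he
  obtain ⟨c, hc, rfl⟩ := mem_image.mp he
  exact mem_filter.mpr ⟨h c hc, subset_insert c P⟩

theorem cross_cdg (n m : ℕ) (P : Finset (Fin n)) (hP : P.card = 2) (hA : ¬ P ⊆ PA n m)
    (hB : ¬ P ⊆ PB n m) : n - 2 ≤ cdg (bip n m) P := by
  have h : (univ \ P).card = n - 2 := by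
    rw [card_sdiff_of_subset (subset_univ P), card_univ, Fintype.card_fin, hP]
  rw [← h]
  refine cdg_ge _ _ _ disjoint_sdiff ?_
  intro c hc
  have hcP : c ∉ P := (mem_sdiff.mp hc).2
  unfold bip
  rw [mem_filter, mem_powersetCard]
  refine ⟨⟨subset_univ _, by rw [card_insert_of_notMem hcP, hP]⟩, fun hs => hA ?_, fun hs => hB ?_⟩
  · exact (subset_insert c P).trans hs
  · exact (subset_insert c P).trans hs

theorem inA_cdg (n m : ℕ) (P : Finset (Fin n)) (hP : P.card = 2) (hA : P ⊆ PA n m) :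
    (PB n m).card ≤ cdg (bip n m) P := by
  refine cdg_ge _ _ _ (disjoint_left.mpr fun x hx hy => not_both n m x (hA hx) hy) ?_
  intro c hc
  have hcP : c ∉ P := fun h => not_both n m c (hA h) hc
  unfold bip
  rw [mem_filter, mem_powersetCard]
  refine ⟨⟨subset_univ _, by rw [card_insert_of_notMem hcP, hP]⟩, fun hs => ?_, fun hs => ?_⟩
  · exact not_both n m c (hs (mem_insert_self c P)) hc
  · obtain ⟨x, hx⟩ : P.Nonempty := by rw [← card_pos, hP]; norm_num
    exact not_both n m x (hA hx) (hs (mem_insert_of_mem hx))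

theorem inB_cdg (n m : ℕ) (P : Finset (Fin n)) (hP : P.card = 2) (hB : P ⊆ PB n m) :
    (PA n m).card ≤ cdg (bip n m) P := by
  refine cdg_ge _ _ _ (disjoint_left.mpr fun x hx hy => not_both n m x hy (hB hx)) ?_
  intro c hc
  have hcP : c ∉ P := fun h => not_both n m c hc (hB h)
  unfold bip
  rw [mem_filter, mem_powersetCard]
  refine ⟨⟨subset_univ _, by rw [card_insert_of_notMem hcP, hP]⟩, fun hs => ?_, fun hs => ?_⟩
  · obtain ⟨x, hx⟩ : P.Nonempty := by rw [← card_pos, hP]; norm_num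
    exact not_both n m x (hs (mem_insert_of_mem hx)) (hB hx)
  · exact not_both n m c hc (hs (mem_insert_self c P))

theorem lower (m : ℕ) (p : ℝ) (hp : 0 ≤ p) :
    (m : ℝ) ^ 2 * ((2 * m - 2 : ℕ) : ℝ) ^ p + (m : ℝ) * ((m : ℝ) - 1) * (m : ℝ) ^ p
      ≤ ∑ P ∈ (univ : Finset (Fin (2 * m))).powersetCard 2, (cdg (bip (2 * m) m) P : ℝ) ^ p := by
  set A := PA (2 * m) m with hA
  set B := PB (2 * m) m with hB
  set U := (univ : Finset (Fin (2 * m))).powersetCard 2 with hU
  have cA : A.card = m := card_PA m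
  have cB : B.card = m := card_PB m
  set UA := A.powersetCard 2 with hUA
  set UB := B.powersetCard 2 with hUB
  have sA : UA ⊆ U := powersetCard_mono (subset_univ _)
  have sB : UB ⊆ U := powersetCard_mono (subset_univ _)
  have dAB : Disjoint UA UB := by
    rw [disjoint_left]
    intro P h1 h2
    have h1' := mem_powersetCard.mp h1
    have h2' := mem_powersetCard.mp h2
    obtain ⟨x, hx⟩ : P.Nonempty := by rw [← card_pos, h1'.2]; norm_num
    exact not_both _ _ x (h1'.1 hx) (h2'.1 hx)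
  have nA : (UA.card : ℝ) = (m : ℝ) * ((m : ℝ) - 1) / 2 := by
    rw [hUA, card_powersetCard, cA, Nat.cast_choose_two]
  have nB : (UB.card : ℝ) = (m : ℝ) * ((m : ℝ) - 1) / 2 := by
    rw [hUB, card_powersetCard, cB, Nat.cast_choose_two]
  have nU : (U.card : ℝ) = (2 * m : ℝ) * ((2 * m : ℝ) - 1) / 2 := by
    rw [hU, card_powersetCard, card_univ, Fintype.card_fin, Nat.cast_choose_two]
    push_cast
    ring
  set X := (U \ UA) \ UB with hX
  have sX : UB ⊆ U \ UA := fun P hP => mem_sdiff.mpr ⟨sB hP, fun h => disjoint_left.mp dAB h hP⟩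
  have e1 : ∑ P ∈ U, (cdg (bip (2 * m) m) P : ℝ) ^ p =
      ∑ P ∈ X, (cdg (bip (2 * m) m) P : ℝ) ^ p + ∑ P ∈ UB, (cdg (bip (2 * m) m) P : ℝ) ^ p
        + ∑ P ∈ UA, (cdg (bip (2 * m) m) P : ℝ) ^ p := by
    rw [sum_sdiff sX, sum_sdiff sA]
  have nX : (X.card : ℝ) = (m : ℝ) ^ 2 := by
    have h1 := card_sdiff_add_card_eq_card sX
    have h2 := card_sdiff_add_card_eq_card sA
    have h3 : ((X.card + UB.card + UA.card : ℕ) : ℝ) = (U.card : ℝ) := by
      rw [h1, h2]
    push_cast at h3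
    rw [nA, nB, nU] at h3
    linarith
  have bX : (m : ℝ) ^ 2 * ((2 * m - 2 : ℕ) : ℝ) ^ p ≤ ∑ P ∈ X, (cdg (bip (2 * m) m) P : ℝ) ^ p := by
    rw [← nX, ← nsmul_eq_mul, ← sum_const]
    refine sum_le_sum fun P hP => ?_
    obtain ⟨h1, h2⟩ := mem_sdiff.mp hP
    obtain ⟨h3, h4⟩ := mem_sdiff.mp h1
    have h5 := (mem_powersetCard.mp h3).2
    refine Real.rpow_le_rpow (by positivity) ?_ hp
    have := cross_cdg (2 * m) m P h5 (fun h => h4 (mem_powersetCard.mpr ⟨h, h5⟩))
      (fun h => h2 (mem_powersetCard.mpr ⟨h, h5⟩))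
    exact_mod_cast this
  have bA : (m : ℝ) * ((m : ℝ) - 1) / 2 * (m : ℝ) ^ p ≤ ∑ P ∈ UA, (cdg (bip (2 * m) m) P : ℝ) ^ p := by
    rw [← nA, ← nsmul_eq_mul, ← sum_const]
    refine sum_le_sum fun P hP => ?_
    obtain ⟨h3, h4⟩ := mem_powersetCard.mp hP
    refine Real.rpow_le_rpow (by positivity) ?_ hp
    have := inA_cdg (2 * m) m P h4 h3
    rw [card_PB] at this
    exact_mod_cast this
  have bB : (m : ℝ) * ((m : ℝ) - 1) / 2 * (m : ℝ) ^ p ≤ ∑ P ∈ UB, (cdg (bip (2 * m) m) P : ℝ) ^ p := by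
    rw [← nB, ← nsmul_eq_mul, ← sum_const]
    refine sum_le_sum fun P hP => ?_
    obtain ⟨h3, h4⟩ := mem_powersetCard.mp hP
    refine Real.rpow_le_rpow (by positivity) ?_ hp
    have := inB_cdg (2 * m) m P h4 h3
    rw [card_PA] at this
    exact_mod_cast this
  rw [e1]
  linarith

/-- the constant is attained asymptotically -/
theorem sharp (p : ℝ) (hp : 0 ≤ p) (c : ℝ) (hc : c < (1 + (1 / 2) ^ p) / 4) :
    ∃ N : ℕ, ∀ m : ℕ, N ≤ m → c * ((2 * m : ℕ) : ℝ) ^ (p + 2)
      < ∑ P ∈ (univ : Finset (Fin (2 * m))).powersetCard 2, (cdg (bip (2 * m) m) P : ℝ) ^ p := by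
  have t1 : Filter.Tendsto (fun m : ℕ => (1 : ℝ) - 1 / (m : ℝ)) Filter.atTop (nhds 1) := by
    have := tendsto_one_div_atTop_nhds_zero_nat (𝕜 := ℝ)
    simpa using this.const_sub 1
  have t2 : Filter.Tendsto (fun m : ℕ => ((1 : ℝ) - 1 / (m : ℝ)) ^ p) Filter.atTop (nhds 1) := by
    have := t1.rpow_const (p := p) (Or.inl one_ne_zero)
    simpa using this
  have t3 : Filter.Tendsto (fun m : ℕ => ((1 : ℝ) - 1 / (m : ℝ)) ^ p / 4
      + (1 / 2 : ℝ) ^ p / 4 * ((1 : ℝ) - 1 / (m : ℝ))) Filter.atTop (nhds (1 / 4 + (1 / 2 : ℝ) ^ p / 4 * 1)) :=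
    (t2.div_const 4).add (t1.const_mul _)
  have hc' : c < 1 / 4 + (1 / 2 : ℝ) ^ p / 4 * 1 := by linarith
  obtain ⟨N, hN⟩ := Filter.eventually_atTop.mp (t3.eventually (lt_mem_nhds hc'))
  refine ⟨max N 1, fun m hm => ?_⟩
  have hm1 : 1 ≤ m := (le_max_right _ _).trans hm
  have hmp : (0 : ℝ) < (m : ℝ) := by exact_mod_cast hm1
  have h1 := hN m ((le_max_left _ _).trans hm)
  refine lt_of_lt_of_le ?_ (lower m p hp)
  have h2 : (0 : ℝ) < ((2 * m : ℕ) : ℝ) := by push_cast; linarith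
  have h3 : 0 < ((2 * m : ℕ) : ℝ) ^ (p + 2) := Real.rpow_pos_of_pos h2 _
  have h4 := mul_lt_mul_of_pos_right h1 h3
  refine lt_of_lt_of_eq h4 ?_
  have e1 : ((2 * m - 2 : ℕ) : ℝ) = ((2 * m : ℕ) : ℝ) * (1 - 1 / (m : ℝ)) := by
    rw [Nat.cast_sub (by omega)]
    push_cast
    field_simp
  have h5 : (0 : ℝ) ≤ 1 - 1 / (m : ℝ) := by
    rw [sub_nonneg, div_le_one hmp]
    exact_mod_cast hm1
  have e2 : (m : ℝ) = ((2 * m : ℕ) : ℝ) * (1 / 2) := by push_cast; ring
  have e3 : (m : ℝ) ^ p = ((2 * m : ℕ) : ℝ) ^ p * (1 / 2) ^ p := by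
    rw [← Real.mul_rpow h2.le (by norm_num), ← e2]
  rw [e1, Real.mul_rpow h2.le h5, Real.rpow_add h2, Real.rpow_two, e3]
  have e4 : (m : ℝ) - 1 = (m : ℝ) * (1 - 1 / (m : ℝ)) := by field_simp
  rw [e4]
  push_cast
  ring

end Pool.Agent.H122R2.K5
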