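import Pool.Agent.H122R2.N6.Maj2

/-! Majorisation of `x ^ p`, `p ≥ 2`, on `[0,1]` by cubics touching at `1/2` and meeting at `1`. -/

set_option autoImplicit false

namespace Pool.Agent.H122R2.N6.Maj

/-- nodes `1/2` (double), and two of: `0`, `1` simple or `1` double -/
theorem nodesA (p : ℝ) (hp3 : 3 ≤ p) (w0 w1 w2 w3 w4 : ℝ)
    (W : ℝ → ℝ) (hW : ∀ y, W y = w0 + w1 * y + w2 * y ^ 2 + w3 * y ^ 3 + w4 * y ^ 4)
    (W1 : ℝ → ℝ) (hW1 : ∀ y, W1 y = w1 + (2 * w2) * y + (3 * w3) * y ^ 2 + (4 * w4) * y ^ 3)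
    (h0 : (0 : ℝ) ^ p = W 0)
    (ha : (1 / 2 : ℝ) ^ p = W (1 / 2)) (ha' : p * (1 / 2 : ℝ) ^ (p - 1) = W1 (1 / 2))
    (hb : (1 : ℝ) ^ p = W 1)
    (d : ℝ) (hd : 0 < d) (hd1 : d < 1) (hda : d ≠ 1 / 2) (he : d ^ p = W d) : 0 ≤ w4 := by
  have hD : ∀ x, HasDerivAt W (W1 x) x := by
    intro x
    have h := hq w0 w1 w2 w3 w4 0 x
    have e : W = fun y : ℝ => w0 + w1 * y + w2 * y ^ 2 + w3 * y ^ 3 + w4 * y ^ 4 + 0 * y ^ 5 := by
      funext y; rw [hW]; ring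
    rw [e, hW1]
    convert h using 1
    ring
  have hp0 : 0 < p := by linarith
  have hD1 : ∀ x, HasDerivAt W1 ((2 * w2) + (2 * (3 * w3)) * x + (3 * (4 * w4)) * x ^ 2
      + (4 * 0) * x ^ 3 + (5 * 0) * x ^ 4 + 0 * x ^ 5) x := by
    intro x
    have h := hq w1 (2 * w2) (3 * w3) (4 * w4) 0 0 x
    have e : W1 = fun y : ℝ => w1 + (2 * w2) * y + (3 * w3) * y ^ 2 + (4 * w4) * y ^ 3
        + 0 * y ^ 4 + 0 * y ^ 5 := by
      funext y; rw [hW1]; ring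
    rw [e]
    exact h
  have fin : ∀ {x1 x2 x3 x4 : ℝ}, 0 < x1 → x1 < x2 → x2 < x3 → x3 < x4 →
      p * x1 ^ (p - 1) = W1 x1 → p * x2 ^ (p - 1) = W1 x2 → p * x3 ^ (p - 1) = W1 x3 →
      p * x4 ^ (p - 1) = W1 x4 → 0 ≤ w4 := by
    intro x1 x2 x3 x4 hx h12 h23 h34 e1 e2 e3 e4
    obtain ⟨z, hz, _, h⟩ := z4 p W1 _ _ _ hD1 (hq _ _ _ _ _ _) (hq _ _ _ _ _ _)
      hx h12 h23 h34 e1 e2 e3 e4
    have hpos : 0 < z ^ (p - 1 - 1 - 1 - 1) := Real.rpow_pos_of_pos (hx.trans hz) _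
    have hneg : 0 ≤ p * (p - 1) * (p - 1 - 1) * (p - 1 - 1 - 1) :=
      mul_nonneg (mul_nonneg (mul_nonneg (by linarith) (by linarith)) (by linarith)) (by linarith)
    have h2 := mul_nonneg hneg hpos.le
    rw [h] at h2
    nlinarith
  rcases lt_or_gt_of_ne hda with h | h
  · obtain ⟨z1, a1, b1, c1⟩ := ro0 p hp0 W W1 hD le_rfl hd h0 he
    obtain ⟨z2, a2, b2, c2⟩ := ro0 p hp0 W W1 hD hd.le h he ha
    obtain ⟨z3, a3, b3, c3⟩ := ro0 p hp0 W W1 hD (by norm_num) (by norm_num) ha hb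
    exact fin a1 (b1.trans a2) b2 a3 c1 c2 ha' c3
  · obtain ⟨z1, a1, b1, c1⟩ := ro0 p hp0 W W1 hD le_rfl (by norm_num) h0 ha
    obtain ⟨z2, a2, b2, c2⟩ := ro0 p hp0 W W1 hD (by norm_num) h ha he
    obtain ⟨z3, a3, b3, c3⟩ := ro0 p hp0 W W1 hD hd.le hd1 he hb
    exact fin a1 b1 a2 (b2.trans a3) c1 ha' c2 c3

theorem nodesB (p : ℝ) (hp2 : 2 ≤ p) (hp3 : p ≤ 3) (w0 w1 w2 w3 w4 : ℝ)
    (W : ℝ → ℝ) (hW : ∀ y, W y = w0 + w1 * y + w2 * y ^ 2 + w3 * y ^ 3 + w4 * y ^ 4)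
    (W1 : ℝ → ℝ) (hW1 : ∀ y, W1 y = w1 + (2 * w2) * y + (3 * w3) * y ^ 2 + (4 * w4) * y ^ 3)
    (ha : (1 / 2 : ℝ) ^ p = W (1 / 2)) (ha' : p * (1 / 2 : ℝ) ^ (p - 1) = W1 (1 / 2))
    (hb : (1 : ℝ) ^ p = W 1) (hb' : p * (1 : ℝ) ^ (p - 1) = W1 1)
    (d : ℝ) (hd : 0 ≤ d) (hd1 : d < 1) (hda : d ≠ 1 / 2) (he : d ^ p = W d) : w4 ≤ 0 := by
  have hD : ∀ x, HasDerivAt W (W1 x) x := by
    intro x
    have h := hq w0 w1 w2 w3 w4 0 x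
    have e : W = fun y : ℝ => w0 + w1 * y + w2 * y ^ 2 + w3 * y ^ 3 + w4 * y ^ 4 + 0 * y ^ 5 := by
      funext y; rw [hW]; ring
    rw [e, hW1]
    convert h using 1
    ring
  have hp0 : 0 < p := by linarith
  have hD1 : ∀ x, HasDerivAt W1 ((2 * w2) + (2 * (3 * w3)) * x + (3 * (4 * w4)) * x ^ 2
      + (4 * 0) * x ^ 3 + (5 * 0) * x ^ 4 + 0 * x ^ 5) x := by
    intro x
    have h := hq w1 (2 * w2) (3 * w3) (4 * w4) 0 0 x
    have e : W1 = fun y : ℝ => w1 + (2 * w2) * y + (3 * w3) * y ^ 2 + (4 * w4) * y ^ 3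
        + 0 * y ^ 4 + 0 * y ^ 5 := by
      funext y; rw [hW1]; ring
    rw [e]
    exact h
  have fin : ∀ {x1 x2 x3 x4 : ℝ}, 0 < x1 → x1 < x2 → x2 < x3 → x3 < x4 →
      p * x1 ^ (p - 1) = W1 x1 → p * x2 ^ (p - 1) = W1 x2 → p * x3 ^ (p - 1) = W1 x3 →
      p * x4 ^ (p - 1) = W1 x4 → w4 ≤ 0 := by
    intro x1 x2 x3 x4 hx h12 h23 h34 e1 e2 e3 e4
    obtain ⟨z, hz, _, h⟩ := z4 p W1 _ _ _ hD1 (hq _ _ _ _ _ _) (hq _ _ _ _ _ _)
      hx h12 h23 h34 e1 e2 e3 e4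
    have hpos : 0 < z ^ (p - 1 - 1 - 1 - 1) := Real.rpow_pos_of_pos (hx.trans hz) _
    have hneg : p * (p - 1) * (p - 1 - 1) * (p - 1 - 1 - 1) ≤ 0 := by
      have a1 : 0 ≤ p * (p - 1) := by nlinarith
      have a3 : 0 ≤ p * (p - 1) * (p - 1 - 1) := mul_nonneg a1 (by linarith)
      exact mul_nonpos_of_nonneg_of_nonpos a3 (by linarith)
    have h2 := mul_nonpos_of_nonpos_of_nonneg hneg hpos.le
    rw [h] at h2
    nlinarith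
  rcases lt_or_gt_of_ne hda with h | h
  · obtain ⟨z1, a1, b1, c1⟩ := ro0 p hp0 W W1 hD hd h he ha
    obtain ⟨z2, a2, b2, c2⟩ := ro0 p hp0 W W1 hD (by norm_num) (by norm_num) ha hb
    exact fin (lt_of_le_of_lt hd a1) b1 a2 b2 c1 ha' c2 hb'
  · obtain ⟨z2, a2, b2, c2⟩ := ro0 p hp0 W W1 hD (by norm_num) h ha he
    obtain ⟨z3, a3, b3, c3⟩ := ro0 p hp0 W W1 hD hd hd1 he hb
    exact fin (by norm_num) a2 (b2.trans a3) b3 ha' c2 c3 hb'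

/-- the cubic majorant, multiplied by `q = 2 ^ p` -/
noncomputable def MC (p q κ d : ℝ) : ℝ :=
  1 + 2 * (q - 1) * (d - 1 / 2) + (d - 1 / 2) * (d - 1) * (4 * (q - 1 - p) + κ * (d - 1 / 2))

theorem half (p : ℝ) : (1 / 2 : ℝ) ^ p * 2 ^ p = 1 := by
  rw [← Real.mul_rpow (by norm_num) (by norm_num)]
  norm_num

theorem half' (p : ℝ) : (1 / 2 : ℝ) ^ (p - 1) = 2 * (1 / 2 : ℝ) ^ p := by
  rw [Real.rpow_sub_one (by norm_num)]
  ring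

/-- `p ≥ 3`: the condition is at `0` -/
theorem majA (p κ : ℝ) (hp3 : 3 ≤ p) (h0 : κ ≤ 4 * ((2 : ℝ) ^ p - 1) - 4 * (2 * p - 1)) (d : ℝ) (hd : 0 ≤ d)
    (hd1 : d ≤ 1) : d ^ p ≤ (1 / 2 : ℝ) ^ p * MC p (2 ^ p) κ d := by
  have e1 := half p
  have e2 := half' p
  have hθ : 0 < (1 / 2 : ℝ) ^ p := Real.rpow_pos_of_pos (by norm_num) _
  set q : ℝ := (2 : ℝ) ^ p with hq
  set θ : ℝ := (1 / 2 : ℝ) ^ p with hθd
  have hp0 : 0 < p := by linarith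
  set κ0 : ℝ := 4 * (q - 1) - 4 * (2 * p - 1) with hκ0
  -- monotonicity in κ
  have hmono : θ * MC p q κ0 d ≤ θ * MC p q κ d := by
    refine mul_le_mul_of_nonneg_left ?_ hθ.le
    unfold MC
    have h1 : 0 ≤ (κ0 - κ) * ((d - 1 / 2) ^ 2 * (1 - d)) :=
      mul_nonneg (by linarith) (mul_nonneg (sq_nonneg _) (by linarith))
    nlinarith
  refine le_trans ?_ hmono
  rcases hd.eq_or_lt with h | hd'
  · rw [← h, Real.zero_rpow hp0.ne']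
    refine mul_nonneg hθ.le (le_of_eq ?_)
    unfold MC
    rw [hκ0]
    ring
  rcases hd1.eq_or_lt with h1 | hd1'
  · rw [h1, Real.one_rpow]
    unfold MC
    have : θ * q = 1 := e1
    nlinarith
  by_cases ha : d = 1 / 2
  · rw [ha, ← hθd]
    unfold MC
    ring_nf
    exact le_rfl
  have hden : 0 < d * (d - 1 / 2) ^ 2 * (1 - d) :=
    mul_pos (mul_pos hd' (pow_pos_of_ne (sub_ne_zero.mpr ha))) (by linarith)
  set c : ℝ := (d ^ p - θ * MC p q κ0 d) / (d * (d - 1 / 2) ^ 2 * (1 - d)) with hc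
  have hcd : d ^ p = θ * MC p q κ0 d + c * (d * (d - 1 / 2) ^ 2 * (1 - d)) := by
    rw [hc, div_mul_cancel₀ _ hden.ne']
    ring
  have hc0 : 0 ≤ -c := by
    refine nodesA p hp3
      0
      (θ * (2 * (q - 1) - 3 / 2 * (4 * (q - 1 - p)) + κ0 * (5 / 4)) + c * (1 / 4))
      (θ * (4 * (q - 1 - p) - 2 * κ0) - c * (5 / 4))
      (θ * κ0 + 2 * c) (-c)
      (fun y => θ * MC p q κ0 y + c * (y * (y - 1 / 2) ^ 2 * (1 - y))) ?_
      (fun y => (θ * (2 * (q - 1) - 3 / 2 * (4 * (q - 1 - p)) + κ0 * (5 / 4)) + c * (1 / 4))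
        + (2 * (θ * (4 * (q - 1 - p) - 2 * κ0) - c * (5 / 4))) * y
        + (3 * (θ * κ0 + 2 * c)) * y ^ 2 + (4 * -c) * y ^ 3) (fun y => rfl) ?_ ?_ ?_ ?_
      d hd' hd1' ha hcd
    · intro y
      show θ * MC p q κ0 y + c * (y * (y - 1 / 2) ^ 2 * (1 - y)) = _
      unfold MC
      rw [hκ0]
      ring
    · rw [Real.zero_rpow hp0.ne']
      show 0 = θ * MC p q κ0 0 + c * (0 * (0 - 1 / 2) ^ 2 * (1 - 0))
      unfold MC
      rw [hκ0]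
      ring
    · show θ = θ * MC p q κ0 (1 / 2) + c * (1 / 2 * (1 / 2 - 1 / 2) ^ 2 * (1 - 1 / 2))
      unfold MC
      ring
    · rw [e2]
      ring
    · rw [Real.one_rpow]
      show 1 = θ * MC p q κ0 1 + c * (1 * (1 - 1 / 2) ^ 2 * (1 - 1))
      unfold MC
      linear_combination -e1
  rw [hcd]
  have := mul_nonneg hc0 hden.le
  linarith

/-- `2 ≤ p ≤ 3`: the condition is at `1` -/
theorem majB (p κ : ℝ) (hp2 : 2 ≤ p) (hp3 : p ≤ 3)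
    (h0 : κ ≤ 4 * p * (2 : ℝ) ^ p - 16 * ((2 : ℝ) ^ p - 1) + 8 * p) (d : ℝ) (hd : 0 ≤ d)
    (hd1 : d ≤ 1) : d ^ p ≤ (1 / 2 : ℝ) ^ p * MC p (2 ^ p) κ d := by
  have e1 := half p
  have e2 := half' p
  have hθ : 0 < (1 / 2 : ℝ) ^ p := Real.rpow_pos_of_pos (by norm_num) _
  set q : ℝ := (2 : ℝ) ^ p with hq
  set θ : ℝ := (1 / 2 : ℝ) ^ p with hθd
  have hp0 : 0 < p := by linarith
  set κ0 : ℝ := 4 * p * q - 16 * (q - 1) + 8 * p with hκ0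
  have hmono : θ * MC p q κ0 d ≤ θ * MC p q κ d := by
    refine mul_le_mul_of_nonneg_left ?_ hθ.le
    unfold MC
    have h1 : 0 ≤ (κ0 - κ) * ((d - 1 / 2) ^ 2 * (1 - d)) :=
      mul_nonneg (by linarith) (mul_nonneg (sq_nonneg _) (by linarith))
    nlinarith
  refine le_trans ?_ hmono
  rcases hd1.eq_or_lt with h1 | hd1'
  · rw [h1, Real.one_rpow]
    unfold MC
    have : θ * q = 1 := e1
    nlinarith
  by_cases ha : d = 1 / 2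
  · rw [ha, ← hθd]
    unfold MC
    ring_nf
    exact le_rfl
  have hden : 0 < ((d - 1 / 2) * (d - 1)) ^ 2 :=
    pow_pos_of_ne (mul_ne_zero (sub_ne_zero.mpr ha) (sub_ne_zero.mpr hd1'.ne))
  set c : ℝ := (d ^ p - θ * MC p q κ0 d) / ((d - 1 / 2) * (d - 1)) ^ 2 with hc
  have hcd : d ^ p = θ * MC p q κ0 d + c * ((d - 1 / 2) * (d - 1)) ^ 2 := by
    rw [hc, div_mul_cancel₀ _ hden.ne']
    ring
  have hc0 : c ≤ 0 := by
    refine nodesB p hp2 hp3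
      (θ * (1 - (q - 1) + 2 * (q - 1 - p) - κ0 / 4) + c / 4)
      (θ * (2 * (q - 1) - 6 * (q - 1 - p) + κ0 * (5 / 4)) - c * (3 / 2))
      (θ * (4 * (q - 1 - p) - 2 * κ0) + c * (13 / 4))
      (θ * κ0 - 3 * c) c
      (fun y => θ * MC p q κ0 y + c * ((y - 1 / 2) * (y - 1)) ^ 2) ?_
      (fun y => (θ * (2 * (q - 1) - 6 * (q - 1 - p) + κ0 * (5 / 4)) - c * (3 / 2))
        + (2 * (θ * (4 * (q - 1 - p) - 2 * κ0) + c * (13 / 4))) * y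
        + (3 * (θ * κ0 - 3 * c)) * y ^ 2 + (4 * c) * y ^ 3) (fun y => rfl) ?_ ?_ ?_ ?_
      d hd hd1' ha hcd
    · intro y
      show θ * MC p q κ0 y + c * ((y - 1 / 2) * (y - 1)) ^ 2 = _
      unfold MC
      ring
    · show θ = θ * MC p q κ0 (1 / 2) + c * ((1 / 2 - 1 / 2) * (1 / 2 - 1)) ^ 2
      unfold MC
      ring
    · rw [e2]
      ring
    · rw [Real.one_rpow]
      show 1 = θ * MC p q κ0 1 + c * ((1 - 1 / 2) * (1 - 1)) ^ 2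
      unfold MC
      linear_combination -e1
    · rw [Real.one_rpow]
      rw [hκ0]
      linear_combination (-p) * e1
  rw [hcd]
  have := mul_nonpos_of_nonpos_of_nonneg hc0 hden.le
  linarith

end Pool.Agent.H122R2.N6.Maj
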