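import Pool.Agent.H122R2.K5.FinE1
import Pool.Agent.H122R2.K5.FinE2
import Pool.Agent.H122R2.K5.FinE3
import Pool.Agent.H122R2.K5.Maj5
import Pool.Agent.H122R2.N6.Lp

/-! The `p`-th powers of the codegrees of a `K_5^3`-free 3-graph, `p ≥ 2`. -/

set_option autoImplicit false
open Finset
open scoped Classical

namespace Pool.Agent.H122R2.N6

namespace Maj

theorem wl1 {p : ℝ} (h : 2 ≤ p) : 0 ≤ 8 * ((2 : ℝ) ^ p - 1) - 12 * p := by
  have ht : 0 ≤ p - 2 := by linarith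
  have hq := q_lo2 ht
  rw [show 2 + (p - 2) = p by ring] at hq
  set q := (2 : ℝ) ^ p
  have e1 : 0 ≤ (0.693147 * (p - 2)) ^ 2 / 2 := by positivity
  have e2 : 0 ≤ (0.693147 * (p - 2)) ^ 3 / 6 := by positivity
  have e3 : 0 ≤ (0.693147 * (p - 2)) ^ 4 / 24 := by positivity
  linarith

theorem wl2 {p : ℝ} (h : 2 ≤ p) (h3 : p ≤ 3) :
    4 / 3 * ((2 : ℝ) ^ p - 1) - 2 * p ≤ 4 * p * 2 ^ p - 16 * ((2 : ℝ) ^ p - 1) + 8 * p := by
  have ht : 0 ≤ p - 2 := by linarith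
  have hq := q_up2' ht (by linarith)
  rw [show 2 + (p - 2) = p by ring] at hq
  set q := (2 : ℝ) ^ p
  have hα : 0 ≤ 52 / 3 - 4 * p := by linarith
  have hm := mul_le_mul_of_nonneg_right hq hα
  obtain ⟨t, rfl⟩ : ∃ t, p = 2 + t := ⟨p - 2, by ring⟩
  rw [show 2 + t - 2 = t by ring] at *
  have hs : 0 ≤ 1 - t := by linarith
  nlinarith [mul_nonneg (pow_nonneg ht 5) (pow_nonneg hs 0), mul_nonneg (pow_nonneg ht 4) (pow_nonneg hs 1),
    mul_nonneg (pow_nonneg ht 3) (pow_nonneg hs 2), mul_nonneg (pow_nonneg ht 2) (pow_nonneg hs 3),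
    mul_nonneg (pow_nonneg ht 1) (pow_nonneg hs 4)]

theorem wl3 {p : ℝ} (h : 2 ≤ p) (h3 : p ≤ 3) :
    2 / 3 * p + 9 / 5 * (2 * ((2 : ℝ) ^ p - 1) - 4 * p) ≤
      4 * p * 2 ^ p - 16 * ((2 : ℝ) ^ p - 1) + 8 * p := by
  have ht : 0 ≤ p - 2 := by linarith
  have hq := q_up2' ht (by linarith)
  rw [show 2 + (p - 2) = p by ring] at hq
  set q := (2 : ℝ) ^ p
  have hα : 0 ≤ 98 / 5 - 4 * p := by linarith
  have hm := mul_le_mul_of_nonneg_right hq hα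
  obtain ⟨t, rfl⟩ : ∃ t, p = 2 + t := ⟨p - 2, by ring⟩
  rw [show 2 + t - 2 = t by ring] at *
  have hs : 0 ≤ 1 - t := by linarith
  nlinarith [mul_nonneg (pow_nonneg ht 5) (pow_nonneg hs 0), mul_nonneg (pow_nonneg ht 4) (pow_nonneg hs 1),
    mul_nonneg (pow_nonneg ht 3) (pow_nonneg hs 2), mul_nonneg (pow_nonneg ht 2) (pow_nonneg hs 3),
    mul_nonneg (pow_nonneg ht 1) (pow_nonneg hs 4), pow_nonneg hs 5]

theorem q3 {p : ℝ} (h3 : 3 ≤ p) : 8 * (1 + 0.693147 * (p - 3)) ≤ (2 : ℝ) ^ p := by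
  have e : (2 : ℝ) ^ p = 8 * 2 ^ (p - 3) := by
    rw [Real.rpow_sub (by norm_num)]
    norm_num
    ring
  rw [e, two_rpow]
  have hL := Real.log_two_gt_d9
  have h1 : 0.693147 * (p - 3) ≤ Real.log 2 * (p - 3) :=
    mul_le_mul_of_nonneg_right (by linarith) (by linarith)
  have h2 := Real.add_one_le_exp (Real.log 2 * (p - 3))
  linarith

theorem wl4 {p : ℝ} (h3 : 3 ≤ p) :
    2 / 3 * p + 9 / 5 * (2 * ((2 : ℝ) ^ p - 1) - 4 * p) ≤ 4 * ((2 : ℝ) ^ p - 1) - 4 * (2 * p - 1) := by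
  have := q3 h3
  linarith

theorem wl5 {p : ℝ} (h3 : 3 ≤ p) : 2 * p ≤ (2 : ℝ) ^ p - 1 := by
  have := q3 h3
  linarith

end Maj

section
variable {V : Type} [Fintype V] {E : V → V → V → ℕ}

theorem dn_le_one (hE : Sy E) (hn : 0 < Fintype.card V) (a b : V) : dn E a b ≤ 1 := by
  have hn' : (0 : ℝ) < (Fintype.card V : ℝ) := by exact_mod_cast hn
  unfold dn
  rw [div_le_one hn']
  calc ∑ c, (E a b c : ℝ) ≤ ∑ _c : V, (1 : ℝ) := sum_le_sum fun c _ => by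
        have := Bt_lt (hE.b a b c)
        exact_mod_cast (by omega : E a b c ≤ 1)
    _ = (Fintype.card V : ℝ) := by simp

open Maj in
theorem comb2 (hE : Sy E) (hn : 0 < Fintype.card V) (p κ : ℝ) (f g : V → V → ℝ) (α β : ℝ)
    (hα : 0 ≤ α) (hβ : 0 ≤ β) (hs : α + β = 2 * ((2 : ℝ) ^ p - 1))
    (hf : ∑ a, ∑ b, f a b ≤ 3 / 4 * (Fintype.card V : ℝ) ^ 2)
    (hg : ∑ a, ∑ b, g a b ≤ 3 / 4 * (Fintype.card V : ℝ) ^ 2)
    (hM : ∀ a b, MC p (2 ^ p) κ (dn E a b) = (2 - (2 : ℝ) ^ p) + (α * f a b + β * g a b))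
    (hmaj : ∀ d : ℝ, 0 ≤ d → d ≤ 1 → d ^ p ≤ (1 / 2 : ℝ) ^ p * MC p (2 ^ p) κ d) :
    ∑ a, ∑ b, dn E a b ^ p ≤ (1 / 2 : ℝ) ^ p * ((1 + (2 : ℝ) ^ p) / 2) * (Fintype.card V : ℝ) ^ 2 := by
  have hθ : 0 < (1 / 2 : ℝ) ^ p := Real.rpow_pos_of_pos (by norm_num) _
  have h1 : ∑ a, ∑ b, dn E a b ^ p ≤
      ∑ a : V, ∑ b : V, (1 / 2 : ℝ) ^ p * ((2 - (2 : ℝ) ^ p) + (α * f a b + β * g a b)) := by
    refine sum_le_sum fun a _ => sum_le_sum fun b _ => ?_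
    rw [← hM]
    exact hmaj _ (dn_nonneg E a b) (dn_le_one hE hn a b)
  have h2 : ∑ a : V, ∑ b : V, (1 / 2 : ℝ) ^ p * ((2 - (2 : ℝ) ^ p) + (α * f a b + β * g a b))
      = (1 / 2 : ℝ) ^ p * ((2 - (2 : ℝ) ^ p) * (Fintype.card V : ℝ) ^ 2 + (α * ∑ a, ∑ b, f a b
        + β * ∑ a, ∑ b, g a b)) := by
    simp only [← mul_sum, sum_add_distrib, sum_const, card_univ, nsmul_eq_mul]
    ring
  rw [h2] at h1
  have h3 : α * ∑ a, ∑ b, f a b + β * ∑ a, ∑ b, g a b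
      ≤ 2 * ((2 : ℝ) ^ p - 1) * (3 / 4 * (Fintype.card V : ℝ) ^ 2) := by
    rw [← hs]
    have a1 := mul_le_mul_of_nonneg_left hf hα
    have a2 := mul_le_mul_of_nonneg_left hg hβ
    linarith
  refine h1.trans ?_
  rw [mul_assoc]
  refine mul_le_mul_of_nonneg_left ?_ hθ.le
  have : (1 + (2 : ℝ) ^ p) / 2 * (Fintype.card V : ℝ) ^ 2 =
      (2 - (2 : ℝ) ^ p) * (Fintype.card V : ℝ) ^ 2
        + 2 * ((2 : ℝ) ^ p - 1) * (3 / 4 * (Fintype.card V : ℝ) ^ 2) := by ring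
  rw [this]
  linarith

open Maj in
theorem lp5_main (hE : Sy E) (hK : NoK5 E) (hn : 0 < Fintype.card V) (p : ℝ) (h2 : 2 ≤ p) :
    ∑ a, ∑ b, dn E a b ^ p ≤ (1 / 2 : ℝ) ^ p * ((1 + (2 : ℝ) ^ p) / 2) * (Fintype.card V : ℝ) ^ 2 := by
  rcases le_total ((2 : ℝ) ^ p - 1) (2 * p) with h | h
  · have h3 : p ≤ 3 := by
      by_contra hc
      push Not at hc
      have h5 := q3 hc.le
      nlinarith
    refine comb2 hE hn p (4 / 3 * ((2 : ℝ) ^ p - 1) - 2 * p) _ _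
      (12 * p - 6 * ((2 : ℝ) ^ p - 1)) (8 * ((2 : ℝ) ^ p - 1) - 12 * p)
      (by linarith) (wl1 h2) (by ring) (E1.avg hE hK hn) (E2.avg hE hK hn) ?_
      (fun d hd hd1 => majB p _ h2 h3 (wl2 h2 h3) d hd hd1)
    intro a b
    unfold MC ph5
    ring
  · refine comb2 hE hn p (2 / 3 * p + 9 / 5 * (2 * ((2 : ℝ) ^ p - 1) - 4 * p)) _ _
      (4 * p) (2 * ((2 : ℝ) ^ p - 1) - 4 * p)
      (by linarith) (by linarith) (by ring) (E2.avg hE hK hn) (E3.avg hE hK hn) ?_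
      (fun d hd hd1 => ?_)
    · intro a b
      unfold MC ph5
      ring
    · rcases le_total p 3 with h3 | h3
      · exact majB p _ h2 h3 (wl3 h2 h3) d hd hd1
      · exact majA p _ h3 (wl4 h3) d hd hd1

/-- the bound in terms of the codegrees of the pairs -/
theorem lp5_pairs {H : Finset (Finset V)} (hH : ∀ e ∈ H, e.card = 3) (hF : K53Free H) (p : ℝ)
    (h2 : 2 ≤ p) :
    ∑ P ∈ (univ : Finset V).powersetCard 2, (deg2 H P : ℝ) ^ p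
      ≤ (1 + (1 / 2) ^ p) / 4 * (Fintype.card V : ℝ) ^ (p + 2) := by
  rcases Nat.eq_zero_or_pos (Fintype.card V) with h0 | hn
  · haveI := Fintype.card_eq_zero_iff.mp h0
    have : (univ : Finset V).powersetCard 2 = ∅ := by
      rw [powersetCard_eq_empty, card_univ, h0]
      norm_num
    rw [this, sum_empty]
    positivity
  have hp0 : 0 < p := by linarith
  have hn' : (0 : ℝ) < (Fintype.card V : ℝ) := by exact_mod_cast hn
  have hm := lp5_main (tri_sy H) (tri_noK5 hH hF) hn p h2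
  have hd := deg2_fsum_le hH (fun k : ℕ => (k : ℝ) ^ p) (fun k => by positivity)
    (fun a b hab => Real.rpow_le_rpow (by positivity) (by exact_mod_cast hab) hp0.le)
  have e1 : ∑ a, ∑ b, ((∑ c, tri H a b c : ℕ) : ℝ) ^ p
      = (Fintype.card V : ℝ) ^ p * ∑ a, ∑ b, dn (tri H) a b ^ p := by
    rw [mul_sum]
    refine sum_congr rfl fun a _ => ?_
    rw [mul_sum]
    refine sum_congr rfl fun b _ => ?_
    rw [← Real.mul_rpow hn'.le (dn_nonneg _ a b)]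
    unfold dn
    congr 1
    push_cast
    field_simp
  rw [e1] at hd
  have e2 : (1 + (1 / 2 : ℝ) ^ p) / 4 * (Fintype.card V : ℝ) ^ (p + 2)
      = 1 / 2 * ((Fintype.card V : ℝ) ^ p * ((1 / 2 : ℝ) ^ p * ((1 + (2 : ℝ) ^ p) / 2)
        * (Fintype.card V : ℝ) ^ 2)) := by
    have e3 := Maj.half p
    rw [Real.rpow_add hn', Real.rpow_two]
    have e4 : (1 / 2 : ℝ) ^ p * ((1 + (2 : ℝ) ^ p) / 2) = (1 + (1 / 2 : ℝ) ^ p) / 2 := by
      linear_combination e3 / 2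
    rw [e4]
    ring
  rw [e2]
  have h5 := mul_le_mul_of_nonneg_left hm (Real.rpow_nonneg hn'.le p)
  linarith

end
end Pool.Agent.H122R2.N6
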